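import Mathlib

/-!
# The end of the argument at the point `1/2` (MP_eea520_nt, theorem HALF)

If a meromorphic function `g` is `exp H` near one point of a connected open set `D`, with `H` holomorphic
on `D`, and `D` contains an interval `(1/2, 1/2 + ε)` of the real axis, on which `Re H (x)` is
`a log (1 / (x - 1/2))` up to `c log (1 / (x - 1/2)) + O(1)`, then there is an integer (the order of the
pole of `g` at `1/2`) whose distance from `a` is at most `c`.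
-/

set_option autoImplicit false

namespace Pool.Agent.EEAH

open Filter Topology

theorem half_tendsto : Tendsto (fun x : ℝ => (x : ℂ)) (𝓝[>] (1 / 2 : ℝ)) (𝓝[≠] (1 / 2 : ℂ)) := by
  refine tendsto_nhdsWithin_iff.2 ⟨?_, ?_⟩
  · have h4 : Tendsto (fun x : ℝ => (x : ℂ)) (𝓝 (1 / 2 : ℝ)) (𝓝 ((1 / 2 : ℝ) : ℂ)) :=
      Complex.continuous_ofReal.tendsto _
    have h5 : ((1 / 2 : ℝ) : ℂ) = (1 / 2 : ℂ) := by push_cast; rfl
    rw [h5] at h4
    exact h4.mono_left nhdsWithin_le_nhds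
  · filter_upwards [self_mem_nhdsWithin] with x hx
    intro h6
    have h7 : (x : ℂ).re = (1 / 2 : ℂ).re := congrArg Complex.re h6
    rw [Complex.ofReal_re] at h7
    norm_num at h7
    have hx' : (1 / 2 : ℝ) < x := hx
    linarith

theorem half_end_on {D : Set ℂ} (hDo : IsOpen D) (hDc : IsPreconnected D)
    (hDr : ∀ᶠ x : ℝ in 𝓝[>] (1 / 2 : ℝ), (x : ℂ) ∈ D) {g H : ℂ → ℂ} {a c K : ℝ} {s₀ : ℂ}
    (hg : ∀ s ∈ D, MeromorphicAt g s) (hg2 : MeromorphicAt g (1 / 2))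
    (hH : DifferentiableOn ℂ H D) (hs0 : s₀ ∈ D) (hgH : ∀ᶠ s in 𝓝 s₀, g s = Complex.exp (H s))
    (hb : ∀ᶠ x : ℝ in 𝓝[>] (1 / 2 : ℝ),
      |(H (x : ℂ)).re - a * Real.log (1 / (x - 1 / 2))| ≤ c * Real.log (1 / (x - 1 / 2)) + K) :
    ∃ m : ℤ, |(m : ℝ) - a| ≤ c := by
  have hEa : ∀ s ∈ D, AnalyticAt ℂ (fun z => Complex.exp (H z)) s :=
    fun s hs => (hH.analyticAt (hDo.mem_nhds hs)).cexp
  have hid : ∀ s ∈ D, ∀ᶠ z in 𝓝[≠] s, g z = Complex.exp (H z) := by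
    have hfm : MeromorphicOn (fun z => g z - Complex.exp (H z)) D :=
      fun s hs => (hg s hs).sub (hEa s hs).meromorphicAt
    have h0 : meromorphicOrderAt (fun z => g z - Complex.exp (H z)) s₀ = ⊤ := by
      rw [meromorphicOrderAt_eq_top_iff]
      filter_upwards [hgH.filter_mono nhdsWithin_le_nhds] with z hz
      rw [hz, sub_self]
    intro s hs
    have h2 : meromorphicOrderAt (fun z => g z - Complex.exp (H z)) s = ⊤ := by
      by_contra h3
      exact hfm.meromorphicOrderAt_ne_top_of_isPreconnected hDc hs hs0 h3 h0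
    rw [meromorphicOrderAt_eq_top_iff] at h2
    filter_upwards [h2] with z hz
    exact sub_eq_zero.1 hz
  -- the order of `g` at `1/2` is finite
  have htop : meromorphicOrderAt g (1 / 2 : ℂ) ≠ ⊤ := by
    intro h
    rw [meromorphicOrderAt_eq_top_iff] at h
    have h1 : ∀ᶠ z in 𝓝[≠] (1 / 2 : ℂ), ∀ᶠ w in 𝓝[≠] z, g w = 0 := by
      rw [eventually_nhdsWithin_iff, eventually_nhds_iff] at h
      obtain ⟨t, ht, hto, hmem⟩ := h
      rw [eventually_nhdsWithin_iff, eventually_nhds_iff]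
      refine ⟨t, fun z hz hz1 => ?_, hto, hmem⟩
      rw [eventually_nhdsWithin_iff]
      filter_upwards [(hto.inter isOpen_compl_singleton).mem_nhds ⟨hz, hz1⟩] with w hw _
      exact ht w hw.1 hw.2
    obtain ⟨x, hx1, hx2⟩ := (hDr.and (half_tendsto.eventually h1)).exists
    obtain ⟨w, hw1, hw2⟩ := ((hid (x : ℂ) hx1).and hx2).exists
    rw [hw2] at hw1
    exact Complex.exp_ne_zero _ hw1.symm
  obtain ⟨n, hn⟩ := WithTop.ne_top_iff_exists.1 htop
  obtain ⟨h, hha, hh0, hhe⟩ := (meromorphicOrderAt_eq_int_iff hg2).1 hn.symm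
  have h1 : ∀ᶠ z in 𝓝 (1 / 2 : ℂ), z ≠ 1 / 2 → g z = (z - 1 / 2) ^ n • h z := by
    rw [eventually_nhdsWithin_iff] at hhe
    exact hhe
  -- the equality on the real axis
  have h2 : ∀ᶠ z in 𝓝[≠] (1 / 2 : ℂ), z ∈ D → (z - 1 / 2) ^ n * h z = Complex.exp (H z) := by
    rw [eventually_nhdsWithin_iff]
    filter_upwards [eventually_eventually_nhds.2 h1, hha.eventually_analyticAt] with z hz1 hz2 hz hz3
    have hz : z ≠ 1 / 2 := hz
    have hA : AnalyticAt ℂ (fun w : ℂ => (w - 1 / 2) ^ n * h w) z :=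
      ((analyticAt_id.sub analyticAt_const).zpow (sub_ne_zero.2 hz)).mul hz2
    have hne : ∀ᶠ w in 𝓝 z, w ≠ (1 / 2 : ℂ) := isOpen_ne.mem_nhds hz
    have hfr : ∃ᶠ w in 𝓝[≠] z, (w - 1 / 2) ^ n * h w = Complex.exp (H w) := by
      refine Eventually.frequently ?_
      filter_upwards [hid z hz3, hz1.filter_mono nhdsWithin_le_nhds,
        hne.filter_mono nhdsWithin_le_nhds] with w hw1 hw2 hw3
      rw [← hw1, hw2 hw3, smul_eq_mul]
    exact ((hA.frequently_eq_iff_eventually_eq (hEa z hz3)).1 hfr).self_of_nhds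
  have h3 : Tendsto (fun x : ℝ => (x : ℂ)) (𝓝[>] (1 / 2 : ℝ)) (𝓝 (1 / 2 : ℂ)) :=
    half_tendsto.mono_right nhdsWithin_le_nhds
  have h4 : Tendsto (fun x : ℝ => Real.log ‖h (x : ℂ)‖) (𝓝[>] (1 / 2 : ℝ))
      (𝓝 (Real.log ‖h (1 / 2)‖)) :=
    (Real.continuousAt_log (norm_ne_zero_iff.2 hh0)).tendsto.comp
      ((hha.continuousAt.norm.tendsto).comp h3)
  have h5 : ∀ᶠ x : ℝ in 𝓝[>] (1 / 2 : ℝ), (H (x : ℂ)).re =
      (-n : ℝ) * Real.log (1 / (x - 1 / 2)) + Real.log ‖h (x : ℂ)‖ := by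
    have hne : ∀ᶠ x : ℝ in 𝓝[>] (1 / 2 : ℝ), h (x : ℂ) ≠ 0 :=
      h3.eventually (hha.continuousAt.eventually_ne hh0)
    filter_upwards [half_tendsto.eventually h2, self_mem_nhdsWithin, hne, hDr] with x hx1 hx2 hx3 hx9
    have hx2' : (1 / 2 : ℝ) < x := hx2
    have hx4 := hx1 hx9
    have hx5 : Real.log ‖Complex.exp (H (x : ℂ))‖ = (H (x : ℂ)).re := by
      rw [Complex.norm_exp, Real.log_exp]
    have hx6 : ((x : ℂ) - 1 / 2) = ((x - 1 / 2 : ℝ) : ℂ) := by push_cast; rfl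
    have hx7 : (0 : ℝ) < x - 1 / 2 := by linarith
    have hx8 : Real.log (1 / (x - 1 / 2)) = -Real.log (x - 1 / 2) := by
      rw [one_div (x - 1 / 2), Real.log_inv]
    rw [← hx5, ← hx4, norm_mul, norm_zpow, hx6, Complex.norm_real, Real.norm_of_nonneg hx7.le,
      Real.log_mul (zpow_ne_zero _ hx7.ne') (norm_ne_zero_iff.2 hx3), Real.log_zpow, hx8]
    ring
  have h6 : Tendsto (fun x : ℝ => Real.log (1 / (x - 1 / 2))) (𝓝[>] (1 / 2 : ℝ)) atTop := by
    refine Real.tendsto_log_atTop.comp ?_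
    have h7 : Tendsto (fun x : ℝ => x - 1 / 2) (𝓝[>] (1 / 2 : ℝ)) (𝓝[>] 0) := by
      refine tendsto_nhdsWithin_iff.2 ⟨?_, ?_⟩
      · have h8 : Tendsto (fun x : ℝ => x - 1 / 2) (𝓝 (1 / 2 : ℝ)) (𝓝 (1 / 2 - 1 / 2)) :=
          tendsto_id.sub tendsto_const_nhds
        rw [sub_self] at h8
        exact h8.mono_left nhdsWithin_le_nhds
      · filter_upwards [self_mem_nhdsWithin] with x hx
        have hx' : (1 / 2 : ℝ) < x := hx
        show (0 : ℝ) < x - 1 / 2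
        linarith
    exact (tendsto_inv_nhdsGT_zero.comp h7).congr fun x => (one_div _).symm
  refine ⟨-n, ?_⟩
  by_contra hcon
  rw [not_le] at hcon
  have h7 : ∀ᶠ x : ℝ in 𝓝[>] (1 / 2 : ℝ), |Real.log ‖h (x : ℂ)‖| ≤ |Real.log ‖h (1 / 2)‖| + 1 := by
    have h8 := h4.abs
    exact (h8.eventually (eventually_le_nhds (lt_add_one _)))
  have h9 := h6.eventually (eventually_gt_atTop
    ((K + (|Real.log ‖h (1 / 2)‖| + 1)) / (|((-n : ℤ) : ℝ) - a| - c)))
  have h10 := h6.eventually (eventually_ge_atTop 0)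
  obtain ⟨x, hx1, hx2, hx3, hx4, hx5⟩ := (hb.and (h5.and (h7.and (h9.and h10)))).exists
  rw [hx2] at hx1
  rw [div_lt_iff₀ (by linarith)] at hx4
  have hx6 : |((-n : ℤ) : ℝ) - a| * Real.log (1 / (x - 1 / 2)) ≤
      |(-n : ℝ) * Real.log (1 / (x - 1 / 2)) + Real.log ‖h (x : ℂ)‖ -
        a * Real.log (1 / (x - 1 / 2))| + |Real.log ‖h (x : ℂ)‖| := by
    rw [← abs_of_nonneg hx5, ← abs_mul, abs_of_nonneg hx5]
    have h11 : (((-n : ℤ) : ℝ) - a) * Real.log (1 / (x - 1 / 2)) =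
        ((-n : ℝ) * Real.log (1 / (x - 1 / 2)) + Real.log ‖h (x : ℂ)‖ -
        a * Real.log (1 / (x - 1 / 2))) - Real.log ‖h (x : ℂ)‖ := by
      push_cast
      ring
    rw [h11]
    exact abs_sub _ _
  nlinarith [hx6, hx1, hx3, hx4]

/-- The contradiction for an odd order `k` and a constant `c < 1`. -/
theorem half_contra_on {D : Set ℂ} (hDo : IsOpen D) (hDc : IsPreconnected D)
    (hDr : ∀ᶠ x : ℝ in 𝓝[>] (1 / 2 : ℝ), (x : ℂ) ∈ D) {g H : ℂ → ℂ} {c K : ℝ} {k : ℤ} {s₀ : ℂ}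
    (hk : Odd k) (hc : c < 1)
    (hg : ∀ s ∈ D, MeromorphicAt g s) (hg2 : MeromorphicAt g (1 / 2))
    (hH : DifferentiableOn ℂ H D) (hs0 : s₀ ∈ D) (hgH : ∀ᶠ s in 𝓝 s₀, g s = Complex.exp (H s))
    (hb : ∀ᶠ x : ℝ in 𝓝[>] (1 / 2 : ℝ),
      |(H (x : ℂ)).re + (k / 2 : ℝ) * Real.log (x - 1 / 2)| ≤
        c / 2 * Real.log (1 / (x - 1 / 2)) + K) : False := by
  obtain ⟨m, hm⟩ := half_end_on (a := (k / 2 : ℝ)) (c := c / 2) (K := K) hDo hDc hDr hg hg2 hH hs0
    hgH (by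
      filter_upwards [hb] with x hx
      have h1 : Real.log (1 / (x - 1 / 2)) = -Real.log (x - 1 / 2) := by
        rw [one_div (x - 1 / 2), Real.log_inv]
      have h2 : (H (x : ℂ)).re - (k / 2 : ℝ) * Real.log (1 / (x - 1 / 2)) =
          (H (x : ℂ)).re + (k / 2 : ℝ) * Real.log (x - 1 / 2) := by
        rw [h1]
        ring
      rw [h2]
      exact hx)
  obtain ⟨j, hj⟩ := hk
  have h3 : |((2 * m - k : ℤ) : ℝ)| < 1 := by
    have h4 : ((2 * m - k : ℤ) : ℝ) = 2 * ((m : ℝ) - k / 2) := by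
      push_cast
      ring
    rw [h4, abs_mul, abs_two]
    linarith
  have h5 : |2 * m - k| < 1 := by exact_mod_cast h3
  rw [abs_lt] at h5
  omega

/-- The form for the ball with centre `2` and radius `3/2`, and equality on its part in the half plane
`Re s > 1`. -/
theorem half_contra_ball {g H : ℂ → ℂ} {c K : ℝ} {k : ℤ} (hk : Odd k) (hc : c < 1)
    (hg : ∀ s : ℂ, MeromorphicAt g s)
    (hH : DifferentiableOn ℂ H (Metric.ball (2 : ℂ) (3 / 2)))
    (hgH : ∀ s ∈ Metric.ball (2 : ℂ) (3 / 2), 1 < s.re → g s = Complex.exp (H s))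
    (hb : ∀ᶠ x : ℝ in 𝓝[>] (1 / 2 : ℝ),
      |(H (x : ℂ)).re + (k / 2 : ℝ) * Real.log (x - 1 / 2)| ≤
        c / 2 * Real.log (1 / (x - 1 / 2)) + K) : False := by
  refine half_contra_on Metric.isOpen_ball (convex_ball _ _).isPreconnected ?_ hk hc
    (fun s _ => hg s) (hg _) hH (s₀ := 2) (Metric.mem_ball_self (by norm_num)) ?_ hb
  · have h1 : ∀ᶠ x : ℝ in 𝓝[>] (1 / 2 : ℝ), x < 1 :=
      (eventually_lt_nhds (show (1 / 2 : ℝ) < 1 by norm_num)).filter_mono nhdsWithin_le_nhds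
    filter_upwards [self_mem_nhdsWithin, h1] with x hx hx1
    have hx' : (1 / 2 : ℝ) < x := hx
    have h2 : (x : ℂ) - 2 = ((x - 2 : ℝ) : ℂ) := by push_cast; rfl
    rw [mem_ball_iff_norm, h2, Complex.norm_real, Real.norm_eq_abs, abs_lt]
    constructor <;> linarith
  · have h1 : ∀ᶠ s : ℂ in 𝓝 (2 : ℂ), 1 < s.re :=
      (isOpen_lt continuous_const Complex.continuous_re).mem_nhds (by
        show (1 : ℝ) < (2 : ℂ).re
        norm_num)
    filter_upwards [h1, Metric.isOpen_ball.mem_nhds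
      (Metric.mem_ball_self (x := (2 : ℂ)) (show (0 : ℝ) < 3 / 2 by norm_num))] with s hs hs2
    exact hgH s hs2 hs

theorem half_end {g H : ℂ → ℂ} {b a c K : ℝ}
    (hg : ∀ s : ℂ, 1 / 2 ≤ s.re → MeromorphicAt g s)
    (hH : DifferentiableOn ℂ H {s | 1 / 2 < s.re})
    (hgH : ∀ s : ℂ, b < s.re → g s = Complex.exp (H s))
    (hb : ∀ᶠ x : ℝ in 𝓝[>] (1 / 2 : ℝ),
      |(H (x : ℂ)).re - a * Real.log (1 / (x - 1 / 2))| ≤ c * Real.log (1 / (x - 1 / 2)) + K) :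
    ∃ m : ℤ, |(m : ℝ) - a| ≤ c := by
  refine half_end_on (isOpen_lt continuous_const Complex.continuous_re)
    (convex_halfSpace_re_gt _).isPreconnected ?_ (fun s hs => hg s (le_of_lt hs))
    (hg _ (by norm_num)) hH (s₀ := ((max b (1 / 2) + 1 : ℝ) : ℂ)) ?_ ?_ hb
  · filter_upwards [self_mem_nhdsWithin] with x hx
    show (1 / 2 : ℝ) < ((x : ℝ) : ℂ).re
    rw [Complex.ofReal_re]
    exact hx
  · show (1 / 2 : ℝ) < ((max b (1 / 2) + 1 : ℝ) : ℂ).re
    rw [Complex.ofReal_re]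
    have := le_max_right b (1 / 2)
    linarith
  · have h1 : ∀ᶠ z : ℂ in 𝓝 ((max b (1 / 2) + 1 : ℝ) : ℂ), b < z.re := by
      refine (isOpen_lt continuous_const Complex.continuous_re).mem_nhds ?_
      show b < ((max b (1 / 2) + 1 : ℝ) : ℂ).re
      rw [Complex.ofReal_re]
      have := le_max_left b (1 / 2)
      linarith
    filter_upwards [h1] with z hz
    exact hgH z hz

/-- The contradiction for an odd order `k` and a constant `c < 1`. -/
theorem half_contra {g H : ℂ → ℂ} {b c K : ℝ} {k : ℤ} (hk : Odd k) (hc : c < 1)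
    (hg : ∀ s : ℂ, 1 / 2 ≤ s.re → MeromorphicAt g s)
    (hH : DifferentiableOn ℂ H {s | 1 / 2 < s.re})
    (hgH : ∀ s : ℂ, b < s.re → g s = Complex.exp (H s))
    (hb : ∀ᶠ x : ℝ in 𝓝[>] (1 / 2 : ℝ),
      |(H (x : ℂ)).re + (k / 2 : ℝ) * Real.log (x - 1 / 2)| ≤
        c / 2 * Real.log (1 / (x - 1 / 2)) + K) : False := by
  refine half_contra_on (isOpen_lt continuous_const Complex.continuous_re)
    (convex_halfSpace_re_gt _).isPreconnected ?_ hk hc (fun s hs => hg s (le_of_lt hs))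
    (hg _ (by norm_num)) hH (s₀ := ((max b (1 / 2) + 1 : ℝ) : ℂ)) ?_ ?_ hb
  · filter_upwards [self_mem_nhdsWithin] with x hx
    show (1 / 2 : ℝ) < ((x : ℝ) : ℂ).re
    rw [Complex.ofReal_re]
    exact hx
  · show (1 / 2 : ℝ) < ((max b (1 / 2) + 1 : ℝ) : ℂ).re
    rw [Complex.ofReal_re]
    have := le_max_right b (1 / 2)
    linarith
  · have h1 : ∀ᶠ z : ℂ in 𝓝 ((max b (1 / 2) + 1 : ℝ) : ℂ), b < z.re := by
      refine (isOpen_lt continuous_const Complex.continuous_re).mem_nhds ?_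
      show b < ((max b (1 / 2) + 1 : ℝ) : ℂ).re
      rw [Complex.ofReal_re]
      have := le_max_left b (1 / 2)
      linarith
    filter_upwards [h1] with z hz
    exact hgH z hz

end Pool.Agent.EEAH
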